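import Mathlib
import Pool.Agent.W755.MzFin

/-!
# Weights for the Hilbert transform on functions of mean zero

Complete answer to Q1. Let `1 < p < ∞` and let `U` be a weight. The inequality
`∫ |Hf|^p U ≤ C ∫ |f|^p U` holds for all integrable `f` with `∫ f = 0` if and only if one of the
following three weights belongs to the Muckenhoupt class `A_p`:
  `U(x)`,   `U(x) / (1+|x|)^p`,   `U(x) / |x - x0|^p` for some real `x0`.

Necessity. Write `σ = U^{-1/(p-1)}`. Testing the inequality on `f = f1 - c f2` with `f1` carried by a
set `I`, `f2` by a far away set `J` with `σ(I) ≤ A σ(J)`, and using the size of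
`1/(x-y) - 1/(x-z)`, gives local `A_p` bounds and bounds on annuli. If `σ` is locally integrable
with infinite total mass, `J` can be chosen as far as one likes: `U ∈ A_p`. If `σ` is not integrable
near `x0`, `J` can be chosen as a tiny neighbourhood of `x0`: `U/|x-x0|^p ∈ A_p`. If `σ` is integrable
on the line, `J` is a fixed large interval: `U/(1+|x|)^p ∈ A_p`.

Sufficiency. The `A_p` theorem for the Hilbert transform (proved here from the good-lambda type
theorem for `C_p` weights among the starting files, Muckenhoupt's maximal theorem and the power
bound for `A_p` weights) and the identity `(x-x0) Hf(x) = H((y-x0)f)(x)` for mean zero `f`.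
-/

set_option autoImplicit false

namespace Pool.Agent.Results.MP_945c9c_an.Characterization

open MeasureTheory Pool.Agent.W755.Mz

/-- Let `1 < p < ∞` and let `U` be a weight (measurable, nonnegative, locally integrable, not almost
everywhere zero). The weighted inequality `∫ |Hf|^p U ≤ C ∫ |f|^p U` for all integrable `f` of mean
zero holds for some finite `C` if and only if `U ∈ A_p`, or `U/(1+|x|)^p ∈ A_p`, or
`U/|x-x0|^p ∈ A_p` for some real `x0`. -/
theorem result (p : ℝ) (hp : 1 < p) (U : ℝ → ℝ) (hU : IsWeight U) :
    Admissible p U ↔
      (MemAp p U ∨ MemAp p (fun x => U x / (1 + |x|) ^ p) ∨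
        ∃ x0 : ℝ, MemAp p (fun x => U x / |x - x0| ^ p)) :=
  characterization hp hU

end Pool.Agent.Results.MP_945c9c_an.Characterization
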